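import Pool.Agent.Lib.MP_6ec4b3_lc.Interfaces

/-!
# Module AMP: amplification by majority vote
-/

namespace Pool.Agent.Polya.H70

open Pool.Agent.Polya

lemma sum_append (m n : ℕ) (g : List Bool → ℝ) :
    ∑ r : Fin (m + n) → Bool, g (List.ofFn r) =
      ∑ a : Fin m → Bool, ∑ b : Fin n → Bool, g (List.ofFn a ++ List.ofFn b) := by
  rw [← (Fin.appendEquiv (α := Bool) m n).sum_comp, Fintype.sum_prod_type]
  refine Finset.sum_congr rfl fun a _ => Finset.sum_congr rfl fun b _ => ?_
  simp only [Fin.appendEquiv, Equiv.coe_fn_mk]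
  rw [List.ofFn_fin_append]

lemma chunk_left (B j n : ℕ) (a b : List Bool) (ha : a.length = n * B) (hj : j < n) :
    chunk B j (a ++ b) = chunk B j a := by
  unfold chunk
  have h1 : (j + 1) * B ≤ n * B := Nat.mul_le_mul_right B hj
  have h2 : (j + 1) * B = j * B + B := by ring
  rw [List.drop_append_of_le_length (by omega), List.take_append_of_le_length]
  rw [List.length_drop]
  omega

lemma chunk_last (B n : ℕ) (a b : List Bool) (ha : a.length = n * B) (hb : b.length = B) :
    chunk B n (a ++ b) = b := by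
  unfold chunk
  rw [List.drop_left' ha, List.take_of_length_le hb.le]

lemma prod_chunks (B : ℕ) (g : List Bool → ℝ) (n N : ℕ) (hN : N = n * B) :
    ∑ r : Fin N → Bool, ∏ j ∈ Finset.range n, g (chunk B j (List.ofFn r)) =
      (∑ s : Fin B → Bool, g (List.ofFn s)) ^ n := by
  induction n generalizing N with
  | zero =>
    obtain rfl : N = 0 := by rw [hN, Nat.zero_mul]
    simp
  | succ n ih =>
    obtain rfl : N = n * B + B := by rw [hN, Nat.succ_mul]
    rw [sum_append (n * B) B (fun r => ∏ j ∈ Finset.range (n + 1), g (chunk B j r)), pow_succ,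
      ← ih (n * B) rfl, Finset.sum_mul]
    refine Finset.sum_congr rfl fun a _ => ?_
    rw [Finset.mul_sum]
    refine Finset.sum_congr rfl fun b _ => ?_
    rw [Finset.prod_range_succ, chunk_last B n _ _ (by simp) (by simp)]
    congr 1
    refine Finset.prod_congr rfl fun j hj => ?_
    rw [chunk_left B j n _ _ (by simp) (Finset.mem_range.1 hj)]

lemma prob_eq (N : ℕ) (P : List Bool → Prop) [DecidablePred P] :
    prob N P = (∑ r : Fin N → Bool, if P (List.ofFn r) then (1 : ℝ) else 0) / 2 ^ N := by
  unfold prob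
  rw [Nat.card_eq_fintype_card, Fintype.card_subtype, Finset.sum_boole]

/-- a bad word has a large weight -/
lemma weight_ge (T B : ℕ) (D : List Bool → Bool) (ans : Bool) (r : List Bool)
    (h : maj (2 * T) B D r ≠ ans) :
    (15 : ℝ) ^ T ≤ ∏ j ∈ Finset.range (2 * T),
      (if D (chunk B j r) = ans then (3 : ℝ) else 5) := by
  rw [Finset.prod_ite, Finset.prod_const, Finset.prod_const]
  set a := ((Finset.range (2 * T)).filter fun j => D (chunk B j r) = ans).card with ha
  set b := ((Finset.range (2 * T)).filter fun j => ¬ D (chunk B j r) = ans).card with hb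
  have hab : a + b = 2 * T := by
    rw [ha, hb, Finset.card_filter_add_card_filter_not, Finset.card_range]
  have hcnt : ((List.range (2 * T)).filter fun j => D (chunk B j r)).length =
      ((Finset.range (2 * T)).filter fun j => D (chunk B j r) = true).card := by
    rw [← List.toFinset_card_of_nodup (List.nodup_range.filter _)]
    congr 1
    ext j
    simp
  have haT : a ≤ T := by
    by_contra hlt
    apply h
    unfold maj
    rw [hcnt]
    cases ans with
    | true =>
      rw [← ha]
      simp
      omega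
    | false =>
      have hb' : ((Finset.range (2 * T)).filter fun j => D (chunk B j r) = true).card = b := by
        rw [hb]
        congr 1
        ext j
        simp
      rw [hb']
      simp
      omega
  obtain ⟨e, he⟩ := Nat.exists_eq_add_of_le haT
  have hbe : b = T + e := by omega
  rw [hbe, pow_add]
  have h1 : (15 : ℝ) ^ T = 3 ^ a * 3 ^ e * 5 ^ T := by
    rw [← pow_add, ← he, ← mul_pow]
    norm_num
  rw [h1]
  have h2 : (3 : ℝ) ^ e ≤ 5 ^ e := pow_le_pow_left₀ (by norm_num) (by norm_num) e
  calc (3 : ℝ) ^ a * 3 ^ e * 5 ^ T ≤ 3 ^ a * 5 ^ e * 5 ^ T := by gcongr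
    _ = 3 ^ a * (5 ^ T * 5 ^ e) := by ring

theorem amp : AMP := by
  classical
  intro B T D ans h
  rw [prob_eq] at h
  rw [prob_eq]
  have hpB : (0 : ℝ) < 2 ^ B := by positivity
  have hpN : (0 : ℝ) < 2 ^ (2 * T * B) := by positivity
  -- the sum over one piece
  have h1 : ∑ s : Fin B → Bool, (if D (List.ofFn s) = ans then (3 : ℝ) else 5) ≤
      2 ^ B * (15 / 4) := by
    have e : ∀ s : Fin B → Bool, (if D (List.ofFn s) = ans then (3 : ℝ) else 5) =
        5 - 2 * (if D (List.ofFn s) = ans then (1 : ℝ) else 0) := by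
      intro s
      split_ifs <;> norm_num
    simp_rw [e]
    rw [Finset.sum_sub_distrib, ← Finset.mul_sum, Finset.sum_const, Finset.card_univ,
      Fintype.card_fun, Fintype.card_bool, Fintype.card_fin, nsmul_eq_mul]
    rw [le_div_iff₀ hpB] at h
    push_cast
    linarith
  have h0 : 0 ≤ ∑ s : Fin B → Bool, (if D (List.ofFn s) = ans then (3 : ℝ) else 5) :=
    Finset.sum_nonneg fun s _ => by split_ifs <;> norm_num
  have h2 := prod_chunks B (fun s => if D s = ans then (3 : ℝ) else 5) (2 * T) (2 * T * B) rfl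
  have h3 : (∑ r : Fin (2 * T * B) → Bool,
      if maj (2 * T) B D (List.ofFn r) ≠ ans then (1 : ℝ) else 0) * 15 ^ T ≤
      (2 ^ B * (15 / 4)) ^ (2 * T) := by
    refine le_trans ?_ (pow_le_pow_left₀ h0 h1 (2 * T))
    rw [← h2, Finset.sum_mul]
    refine Finset.sum_le_sum fun r _ => ?_
    split_ifs with hr
    · rw [one_mul]
      exact weight_ge T B D ans _ hr
    · rw [zero_mul]
      exact Finset.prod_nonneg fun j _ => by split_ifs <;> norm_num
  have h4 : (∑ r : Fin (2 * T * B) → Bool,
      if maj (2 * T) B D (List.ofFn r) = ans then (1 : ℝ) else 0) =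
      2 ^ (2 * T * B) - ∑ r : Fin (2 * T * B) → Bool,
        if maj (2 * T) B D (List.ofFn r) ≠ ans then (1 : ℝ) else 0 := by
    have : (2 : ℝ) ^ (2 * T * B) = ∑ _r : Fin (2 * T * B) → Bool, (1 : ℝ) := by
      rw [Finset.sum_const, Finset.card_univ, Fintype.card_fun, Fintype.card_bool,
        Fintype.card_fin, nsmul_eq_mul]
      push_cast
      ring
    rw [this, ← Finset.sum_sub_distrib]
    refine Finset.sum_congr rfl fun r _ => ?_
    by_cases hr : maj (2 * T) B D (List.ofFn r) = ans <;> simp [hr]
  rw [h4, sub_div, div_self hpN.ne']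
  have h5 : (∑ r : Fin (2 * T * B) → Bool,
      if maj (2 * T) B D (List.ofFn r) ≠ ans then (1 : ℝ) else 0) / 2 ^ (2 * T * B) ≤
      (15 / 16) ^ T := by
    rw [div_le_iff₀ hpN]
    have h15 : (0 : ℝ) < 15 ^ T := by positivity
    refine le_of_mul_le_mul_right (h3.trans (le_of_eq ?_)) h15
    rw [mul_pow, ← pow_mul, show B * (2 * T) = 2 * T * B by ring, pow_mul (15 / 4 : ℝ) 2 T]
    have e : (15 / 4 : ℝ) ^ 2 = 15 / 16 * 15 := by norm_num
    rw [e, mul_pow]
    ring
  linarith

end Pool.Agent.Polya.H70
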