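import Pool.Agent.Lib.MP_6ec4b3_lc.H70.Amp

/-!
# Module PROB: elementary facts on `prob`
-/

namespace Pool.Agent.Polya.H70

open Pool.Agent.Polya

open Classical in
/-- indicator -/
noncomputable def ind (P : Prop) : ℝ := if P then 1 else 0

lemma ind_nonneg (P : Prop) : 0 ≤ ind P := by unfold ind; split_ifs <;> norm_num

lemma ind_mono {P Q : Prop} (h : P → Q) : ind P ≤ ind Q := by
  unfold ind
  split_ifs with h1 h2 h2
  · exact le_rfl
  · exact absurd (h h1) h2
  · exact zero_le_one
  · exact le_rfl

lemma ind_not (P : Prop) : ind (¬ P) = 1 - ind P := by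
  unfold ind
  by_cases h : P <;> simp [h]

/-- expectation -/
noncomputable def ex (N : ℕ) (g : List Bool → ℝ) : ℝ := (∑ r : Fin N → Bool, g (List.ofFn r)) / 2 ^ N

lemma prob_ex (N : ℕ) (P : List Bool → Prop) : prob N P = ex N (fun r => ind (P r)) := by
  classical
  rw [prob_eq]
  unfold ex ind
  congr 1

lemma ex_mono {N : ℕ} {f g : List Bool → ℝ} (h : ∀ r, r.length = N → f r ≤ g r) :
    ex N f ≤ ex N g := by
  unfold ex
  gcongr with r
  exact h _ (by simp)

lemma ex_const (N : ℕ) (c : ℝ) : ex N (fun _ => c) = c := by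
  unfold ex
  rw [Finset.sum_const, Finset.card_univ, Fintype.card_fun, Fintype.card_bool, Fintype.card_fin,
    nsmul_eq_mul]
  push_cast
  field_simp

lemma ex_sub (N : ℕ) (f g : List Bool → ℝ) : ex N (fun r => f r - g r) = ex N f - ex N g := by
  unfold ex
  rw [Finset.sum_sub_distrib, sub_div]

lemma ex_add (N : ℕ) (f g : List Bool → ℝ) : ex N (fun r => f r + g r) = ex N f + ex N g := by
  unfold ex
  rw [Finset.sum_add_distrib, add_div]

lemma ex_sum (N n : ℕ) (f : ℕ → List Bool → ℝ) :
    ex N (fun r => ∑ i ∈ Finset.range n, f i r) = ∑ i ∈ Finset.range n, ex N (f i) := by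
  unfold ex
  rw [Finset.sum_comm, Finset.sum_div]

lemma ex_append (m n : ℕ) (g : List Bool → ℝ) :
    ex (m + n) g = ex m (fun a => ex n (fun b => g (a ++ b))) := by
  unfold ex
  rw [sum_append, pow_add, ← Finset.sum_div, div_div, mul_comm ((2 : ℝ) ^ m)]

lemma ex_congr {N : ℕ} {f g : List Bool → ℝ} (h : ∀ r, r.length = N → f r = g r) :
    ex N f = ex N g := by
  unfold ex
  congr 1
  exact Finset.sum_congr rfl fun r _ => h _ (by simp)

lemma prob_not (N : ℕ) (P : List Bool → Prop) : prob N (fun r => ¬ P r) = 1 - prob N P := by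
  rw [prob_ex, prob_ex, ← ex_const N 1, ← ex_sub]
  exact ex_congr fun r _ => ind_not _

lemma window (a b c : ℕ) (P : List Bool → Prop) :
    prob (a + (b + c)) (fun r => P ((r.drop a).take b)) = prob b P := by
  rw [prob_ex, prob_ex, ex_append]
  have h1 : ∀ s : List Bool, s.length = a →
      ex (b + c) (fun r => ind (P (((s ++ r).drop a).take b))) = ex b (fun r => ind (P r)) := by
    intro s hs
    rw [ex_append]
    refine ex_congr fun u hu => ?_
    have h2 : ∀ v : List Bool, ((s ++ (u ++ v)).drop a).take b = u := by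
      intro v
      rw [List.drop_left' hs, List.take_left' hu]
    simp_rw [h2]
    exact ex_const _ _
  rw [ex_congr h1, ex_const]

lemma two_stage (b c : ℕ) (P : List Bool → Prop) (Q : List Bool → List Bool → Prop) (x y : ℝ)
    (h1 : 1 - x ≤ prob b P) (h2 : ∀ s, s.length = b → 1 - y ≤ prob c (Q s)) :
    1 - (x + y) ≤ prob (b + c) (fun r => P (r.take b) ∧ Q (r.take b) (r.drop b)) := by
  have h3 : prob (b + c) (fun r => ¬ (P (r.take b) ∧ Q (r.take b) (r.drop b))) ≤ x + y := by
    rw [prob_ex]
    have h4 : ex (b + c) (fun r => ind (¬ (P (r.take b) ∧ Q (r.take b) (r.drop b)))) ≤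
        ex (b + c) (fun r => ind (¬ P (r.take b)) + ind (¬ Q (r.take b) (r.drop b))) := by
      refine ex_mono fun r _ => ?_
      by_cases hP : P (r.take b)
      · have := ind_nonneg (¬ P (r.take b))
        have h5 : ind (¬ (P (r.take b) ∧ Q (r.take b) (r.drop b))) ≤
            ind (¬ Q (r.take b) (r.drop b)) := ind_mono fun h hQ => h ⟨hP, hQ⟩
        linarith
      · have := ind_nonneg (¬ Q (r.take b) (r.drop b))
        have h5 : ind (¬ (P (r.take b) ∧ Q (r.take b) (r.drop b))) ≤
            ind (¬ P (r.take b)) := ind_mono fun _ => hP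
        linarith
    refine h4.trans ?_
    rw [ex_add]
    refine add_le_add ?_ ?_
    · have h5 := window 0 b c (fun r => ¬ P r)
      rw [Nat.zero_add] at h5
      simp only [List.drop_zero] at h5
      rw [← prob_ex (b + c) (fun r => ¬ P (r.take b)), h5, prob_not]
      linarith
    · rw [ex_append]
      have h6 : ex b (fun a => ex c (fun u => ind (¬ Q ((a ++ u).take b) ((a ++ u).drop b)))) ≤
          ex b (fun _ => y) := by
        refine ex_mono fun s hs => ?_
        have h7 : ∀ u : List Bool, (s ++ u).take b = s ∧ (s ++ u).drop b = u := fun u =>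
          ⟨List.take_left' hs, List.drop_left' hs⟩
        simp_rw [fun u => (h7 u).1, fun u => (h7 u).2]
        rw [← prob_ex c (fun u => ¬ Q s u), prob_not]
        linarith [h2 s hs]
      refine h6.trans (le_of_eq (ex_const _ _))
  rw [prob_not] at h3
  linarith

theorem probFacts : PROB := by
  refine ⟨fun N P Q h => ?_, fun a b N P h => ?_, fun b N P Q x y hb h1 h2 => ?_,
    fun N n P x h => ?_⟩
  · rw [prob_ex, prob_ex]
    exact ex_mono fun r hr => ind_mono (h r hr)
  · obtain ⟨c, rfl⟩ := Nat.exists_eq_add_of_le h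
    rw [Nat.add_assoc]
    exact window a b c P
  · obtain ⟨c, rfl⟩ := Nat.exists_eq_add_of_le hb
    rw [Nat.add_sub_cancel_left] at h2
    exact two_stage b c P Q x y h1 h2
  · have h3 : prob N (fun r => ¬ ∀ i < n, P i r) ≤ n * x := by
      rw [prob_ex]
      have h4 : ex N (fun r => ind (¬ ∀ i < n, P i r)) ≤
          ex N (fun r => ∑ i ∈ Finset.range n, ind (¬ P i r)) := by
        refine ex_mono fun r _ => ?_
        by_cases hr : ∀ i < n, P i r
        · have h5 : ind (¬ ∀ i < n, P i r) = 0 := by
            unfold ind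
            rw [if_neg (not_not.2 hr)]
          rw [h5]
          exact Finset.sum_nonneg fun i _ => ind_nonneg _
        · have hr' := hr
          push Not at hr'
          obtain ⟨i, hi, hP⟩ := hr'
          refine le_trans ?_ (Finset.single_le_sum (fun i _ => ind_nonneg (¬ P i r))
            (Finset.mem_range.2 hi))
          exact ind_mono fun _ => hP
      refine h4.trans ?_
      rw [ex_sum]
      have h5 : ∑ i ∈ Finset.range n, ex N (fun r => ind (¬ P i r)) ≤
          ∑ _i ∈ Finset.range n, x := by
        refine Finset.sum_le_sum fun i hi => ?_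
        rw [← prob_ex N (fun r => ¬ P i r), prob_not]
        linarith [h i (Finset.mem_range.1 hi)]
      refine h5.trans (le_of_eq ?_)
      rw [Finset.sum_const, Finset.card_range, nsmul_eq_mul]
    rw [prob_not] at h3
    linarith

end Pool.Agent.Polya.H70
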